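import Pool.Agent.BSR.All

/-!
# MP_70d78b_an: bilinear averages along `n² + m²`, `n ≤ N`, `m ≤ N^c`, `0 < c ≤ 1`
-/

set_option autoImplicit false

namespace Pool.Agent.Results.MP_70d78b_an.SumOfSquaresAllExponents

open Finset MeasureTheory Filter Topology

/-- For almost every `x`: if the averages with ONE exponent `c ∈ (0, 1]` converge at `x` to `L`, then the
averages with EVERY exponent `c' ∈ (0, 1]` converge at `x` to `L`. -/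
theorem result (X : Type) [MeasurableSpace X] (μ : Measure X) [IsProbabilityMeasure μ]
    (T : X ≃ᵐ X) (hT : MeasurePreserving (⇑T) μ μ) (f g : X → ℝ) (hf : MemLp f ⊤ μ)
    (hg : MemLp g ⊤ μ) : ∀ᵐ x ∂μ, ∀ c c' : ℝ, 0 < c → c ≤ 1 → 0 < c' → c' ≤ 1 → ∀ L : ℝ,
      Tendsto (fun N : ℕ => 1 / (N : ℝ) ^ (1 + c) * ∑ n ∈ Icc 1 N, ∑ m ∈ Icc 1 ⌊(N : ℝ) ^ c⌋₊,
        f ((⇑T)^[n ^ 2 + m ^ 2] x) * g ((⇑T.symm)^[n ^ 2 + m ^ 2] x)) atTop (𝓝 L) →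
      Tendsto (fun N : ℕ => 1 / (N : ℝ) ^ (1 + c') * ∑ n ∈ Icc 1 N, ∑ m ∈ Icc 1 ⌊(N : ℝ) ^ c'⌋₊,
        f ((⇑T)^[n ^ 2 + m ^ 2] x) * g ((⇑T.symm)^[n ^ 2 + m ^ 2] x)) atTop (𝓝 L) :=
  Pool.Agent.BSR.fir_A Pool.Agent.BSR.all_AEN Pool.Agent.BSR.thm_CHM Pool.Agent.BSQ.all_AEC
    Pool.Agent.BSQ.all_DFN Pool.Agent.BSQ.all_DBR X μ T hT f g hf hg

end Pool.Agent.Results.MP_70d78b_an.SumOfSquaresAllExponents
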