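import Pool.Agent.BSR.All

/-!
# MP_70d78b_an: bilinear averages along `n² + m²`, uniformity in the range of the second square
-/

set_option autoImplicit false

namespace Pool.Agent.Results.MP_70d78b_an.SumOfSquaresUniformAll

open Finset MeasureTheory Filter Topology

/-- For almost every `x`, the averages over `n ≤ N`, `m ≤ M` do not depend on `M ∈ [N^{c₁}, N^{c₂}]` up to `o(1)`,
for all `0 < c₁ ≤ c₂ < 1`. -/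
theorem result (X : Type) [MeasurableSpace X] (μ : Measure X) [IsProbabilityMeasure μ]
    (T : X ≃ᵐ X) (hT : MeasurePreserving (⇑T) μ μ) (f g : X → ℝ) (hf : MemLp f ⊤ μ)
    (hg : MemLp g ⊤ μ) : ∀ᵐ x ∂μ, ∀ c₁ c₂ : ℝ, 0 < c₁ → c₁ ≤ c₂ → c₂ < 1 → ∀ ε : ℝ, 0 < ε →
      ∃ N₀ : ℕ, ∀ N : ℕ, N₀ ≤ N → ∀ M M' : ℕ, (N : ℝ) ^ c₁ ≤ M → (M : ℝ) ≤ (N : ℝ) ^ c₂ →
        (N : ℝ) ^ c₁ ≤ M' → (M' : ℝ) ≤ (N : ℝ) ^ c₂ →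
      |1 / ((N : ℝ) * M) * ∑ n ∈ Icc 1 N, ∑ m ∈ Icc 1 M,
        f ((⇑T)^[n ^ 2 + m ^ 2] x) * g ((⇑T.symm)^[n ^ 2 + m ^ 2] x) -
       1 / ((N : ℝ) * M') * ∑ n ∈ Icc 1 N, ∑ m ∈ Icc 1 M',
        f ((⇑T)^[n ^ 2 + m ^ 2] x) * g ((⇑T.symm)^[n ^ 2 + m ^ 2] x)| ≤ ε :=
  Pool.Agent.BSR.fir_B Pool.Agent.BSR.all_AEN Pool.Agent.BSR.thm_CHM Pool.Agent.BSQ.all_AEC
    X μ T hT f g hf hg

end Pool.Agent.Results.MP_70d78b_an.SumOfSquaresUniformAll
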